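import Mathlib
import Pool.Agent.Helper47.QH.Polytope
import Pool.Agent.Helper59.QH.Reduction

set_option autoImplicit false

namespace Pool.Agent.Results.MP_882a21_co.LinearDiameter

/-- Quantitative Helly theorem for the diameter with a linear bound: if `F` is a finite family of
convex sets in `ℝ^d`, `d ≥ 1`, and the intersection of any nonempty subfamily with at most `2 d`
members has diameter at least `1`, then the intersection of the whole family has diameter at least
`1 / (14 d)`. -/
theorem result (d : ℕ) (hd : 1 ≤ d) (F : Finset (Set (EuclideanSpace ℝ (Fin d))))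
    (hconv : ∀ K ∈ F, Convex ℝ K)
    (hF : ∀ G ⊆ F, G.Nonempty → G.card ≤ 2 * d → 1 ≤ Metric.ediam (⋂ K ∈ G, K)) :
    ENNReal.ofReal (1 / (14 * (d : ℝ))) ≤ Metric.ediam (⋂ K ∈ F, K) := by
  have hd' : (0 : ℝ) < d := by exact_mod_cast hd
  refine Pool.Agent.Helper59.QH.reduction hd (14 * (d : ℝ)) (by positivity) ?_ F hconv ?_
  · intro n a b D hD hx
    obtain ⟨x₀, hx₀⟩ := hx
    exact Pool.Agent.Helper47.QH.polytope hd a b D hD x₀ hx₀
  · intro G hG hcard
    rcases G.eq_empty_or_nonempty with h | h
    · subst h
      have hne : Nonempty (Fin d) := ⟨⟨0, hd⟩⟩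
      have h1 : edist (EuclideanSpace.single (⟨0, hd⟩ : Fin d) (1 : ℝ))
          (0 : EuclideanSpace ℝ (Fin d)) ≤
          Metric.ediam (⋂ K ∈ (∅ : Finset (Set (EuclideanSpace ℝ (Fin d)))), K) := by
        apply Metric.edist_le_ediam_of_mem <;> simp
      refine le_trans ?_ h1
      rw [edist_dist, dist_zero_right, EuclideanSpace.norm_single]
      simp
    · exact hF G hG h hcard

end Pool.Agent.Results.MP_882a21_co.LinearDiameter
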