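import Mathlib
import Pool.Agent.Helper57.NS.N16
import Pool.Agent.Helper57.NS.St.N17

set_option autoImplicit false

namespace Pool.Agent.Results.MP_882a21_co.ManyMembers

/-- Quantitative Helly theorem for the diameter with `(2 + ε) d` members: the conjectured order
`1 / √d` up to a logarithm, for arbitrary (not necessarily symmetric) convex sets.

Let `0 < ε ≤ 1` and let `F` be a finite family of convex sets in `ℝ^d`, `d ≥ 1`, such that the
intersection of any nonempty subfamily with at most `(2 + ε) d` members has diameter at least `1`.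
Then the intersection of `F` has diameter at least `ε ^ (3/2) / (5 · 10 ^ 10 · √d · log (2 d))`. -/
theorem result (d : ℕ) (hd : 1 ≤ d) (ε : ℝ) (hε : 0 < ε) (hε1 : ε ≤ 1)
    (F : Finset (Set (EuclideanSpace ℝ (Fin d)))) (hconv : ∀ K ∈ F, Convex ℝ K)
    (hF : ∀ G ⊆ F, G.Nonempty → (G.card : ℝ) ≤ (2 + ε) * d → 1 ≤ Metric.ediam (⋂ K ∈ G, K)) :
    ENNReal.ofReal (ε * √ε / (50000000000 * √d * Real.log (2 * d))) ≤
      Metric.ediam (⋂ K ∈ F, K) := by
  have hd0 : 0 < d := hd
  have hd1 : (1 : ℝ) ≤ d := by exact_mod_cast hd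
  have hlog := Pool.Agent.Helper57.NS.log2d hd0
  have hlog0 : 0 < Real.log (2 * d) := by linarith
  have hsε : 0 < √ε := Real.sqrt_pos.2 hε
  have hsd : 0 < √(d : ℝ) := Real.sqrt_pos.2 (by linarith)
  have hK : 0 < Pool.Agent.Helper57.NS.KK d ε := by
    rw [Pool.Agent.Helper57.NS.KK]
    positivity
  have h0 : ε * √ε / (50000000000 * √d * Real.log (2 * d)) =
      1 / Pool.Agent.Helper57.NS.KK d ε := by
    rw [Pool.Agent.Helper57.NS.KK, one_div_div]
  rw [h0]
  have hm : 2 * d ≤ ⌊(2 + ε) * (d : ℝ)⌋₊ := by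
    apply Nat.le_floor
    push_cast
    nlinarith
  refine Pool.Agent.Helper57.NS.reduction hd0 hm _ hK ?_ F hconv ?_
  · intro n a b D hD hx
    obtain ⟨x₀, hx₀⟩ := hx
    obtain ⟨s, hs, h⟩ := Pool.Agent.Helper57.NS.polytope hd0 ε hε hε1 a b D hD x₀ hx₀
    exact ⟨s, Nat.le_floor hs, h⟩
  · intro G hG hcard
    rcases G.eq_empty_or_nonempty with h | h
    · subst h
      have h1 : edist (EuclideanSpace.single (⟨0, hd⟩ : Fin d) (1 : ℝ))
          (0 : EuclideanSpace ℝ (Fin d)) ≤
          Metric.ediam (⋂ K ∈ (∅ : Finset (Set (EuclideanSpace ℝ (Fin d)))), K) := by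
        apply Metric.edist_le_ediam_of_mem <;> simp
      refine le_trans ?_ h1
      rw [edist_dist, dist_zero_right, PiLp.norm_single]
      simp
    · refine hF G hG h ?_
      exact (Nat.le_floor_iff (by positivity)).1 hcard

end Pool.Agent.Results.MP_882a21_co.ManyMembers
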