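import Mathlib
import Pool.Agent.Helper6.Helly.Cor

set_option autoImplicit false

namespace Pool.Agent.Results.MP_882a21_co.SymmetricEllipsoid

open scoped BigOperators RealInnerProductSpace

/-- Quantitative Helly theorem for the diameter, centrally symmetric case.

Let `F` be a finite family of convex sets in `ℝ^d`, `d ≥ 1`, such that the intersection of any
nonempty subfamily with at most `2 d` members has diameter at least `1`. Assume that for some point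
`o` either the family `F` is closed under the reflection `x ↦ 2 o - x`, or the intersection of `F`
has nonempty interior and is symmetric about `o`. Then:

* the intersection of `F` contains an ellipsoid with centre `o` and pairwise orthogonal semi-axis
  vectors `c 0, ..., c (d - 1)` (zero allowed) with `∑ ‖c j‖ ^ 2 ≥ 1 / (5000 d)`;
* if the intersection has affine dimension at most `k`, its diameter is at least
  `1 / (36 √(d k))`;
* if the intersection is the intersection of a finite set `H` of (closed or open) half-spaces, its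
  diameter is at least `1 / (50 √(d log |H|))` (when `|H| ≤ 1` the right-hand side is `0` in
  Lean). -/
theorem result (d : ℕ) (hd : 1 ≤ d) (F : Finset (Set (EuclideanSpace ℝ (Fin d))))
    (hconv : ∀ K ∈ F, Convex ℝ K)
    (hF : ∀ G ⊆ F, G.Nonempty → G.card ≤ 2 * d → 1 ≤ Metric.ediam (⋂ K ∈ G, K))
    (o : EuclideanSpace ℝ (Fin d))
    (hsym : (∀ K ∈ F, {x : EuclideanSpace ℝ (Fin d) | (2 : ℝ) • o - x ∈ K} ∈ F) ∨
      ((interior (⋂ K ∈ F, K)).Nonempty ∧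
        ∀ x ∈ ⋂ K ∈ F, K, (2 : ℝ) • o - x ∈ ⋂ K ∈ F, K)) :
    (∃ c : Fin d → EuclideanSpace ℝ (Fin d), (∀ i j, i ≠ j → ⟪c i, c j⟫ = 0) ∧
      1 / (5000 * (d : ℝ)) ≤ ∑ j, ‖c j‖ ^ 2 ∧
      ∀ u : Fin d → ℝ, ∑ j, u j ^ 2 ≤ 1 → o + ∑ j, u j • c j ∈ ⋂ K ∈ F, K) ∧
    (∀ k : ℕ, Module.finrank ℝ (vectorSpan ℝ (⋂ K ∈ F, K)) ≤ k →
      ENNReal.ofReal (1 / (36 * √((d : ℝ) * k))) ≤ Metric.ediam (⋂ K ∈ F, K)) ∧
    (∀ H : Finset (Set (EuclideanSpace ℝ (Fin d))),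
      (∀ h ∈ H, ∃ (a : EuclideanSpace ℝ (Fin d)) (b : ℝ),
        h = {x | ⟪a, x⟫ ≤ b} ∨ h = {x | ⟪a, x⟫ < b}) →
      (⋂ K ∈ F, K) = ⋂ h ∈ H, h →
      ENNReal.ofReal (1 / (50 * √((d : ℝ) * Real.log H.card))) ≤
        Metric.ediam (⋂ K ∈ F, K)) := by
  have hd0 : 0 < d := hd
  obtain ⟨c, hc1, hc2, hc3⟩ : ∃ c : Fin d → EuclideanSpace ℝ (Fin d),
      (∀ i j, i ≠ j → ⟪c i, c j⟫ = 0) ∧ 1 / (5000 * (d : ℝ)) ≤ ∑ j, ‖c j‖ ^ 2 ∧
      ∀ u : Fin d → ℝ, ∑ j, u j ^ 2 ≤ 1 → ∀ K ∈ F, o + ∑ j, u j • c j ∈ K := by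
    rcases hsym with h | ⟨h1, h2⟩
    · exact Pool.Agent.Helper6.Helly.ellipsoid1 hd0 F hconv o h hF
    · exact Pool.Agent.Helper6.Helly.ellipsoid2 hd0 F hconv o h1 h2 hF
  have hc4 : ∀ u : Fin d → ℝ, ∑ j, u j ^ 2 ≤ 1 → o + ∑ j, u j • c j ∈ ⋂ K ∈ F, K :=
    fun u hu => Set.mem_iInter₂.2 fun K hK => hc3 u hu K hK
  have hsymQ : ∀ x ∈ ⋂ K ∈ F, K, (2 : ℝ) • o - x ∈ ⋂ K ∈ F, K := by
    rcases hsym with h | ⟨_, h2⟩
    · intro x hx
      refine Set.mem_iInter₂.2 fun K hK => ?_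
      exact Set.mem_iInter₂.1 hx _ (h K hK)
    · exact h2
  refine ⟨⟨c, hc1, hc2, hc4⟩, fun k hk => ?_, fun H hH hQ => ?_⟩
  · exact Pool.Agent.Helper6.Helly.diam_dim hd0 _ o c hc1 hc2 hc4 k hk
  · exact Pool.Agent.Helper6.Helly.diam_half hd0 _ o c hc1 hc2 hc4 hsymQ H hH hQ

end Pool.Agent.Results.MP_882a21_co.SymmetricEllipsoid
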