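import Mathlib
import Pool.Agent.Helper72.SD.Main

set_option autoImplicit false

namespace Pool.Agent.Results.MP_882a21_co.SymmetricSharp

open scoped BigOperators RealInnerProductSpace

/-- Quantitative Helly theorem for the diameter, centrally symmetric case, with the conjectured
order `d ^ (-1 / 2)`.

Let `F` be a finite family of convex sets in `ℝ^d`, `d ≥ 1`, such that the intersection of any
nonempty subfamily with at most `2 d` members has diameter at least `1`. Assume that for some point
`o` either the family `F` is closed under the reflection `x ↦ 2 o - x`, or the intersection of `F`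
has nonempty interior and is symmetric about `o`. Then the intersection of `F` has diameter at least
`1 / (50000000 √d)`. -/
theorem result (d : ℕ) (hd : 1 ≤ d) (F : Finset (Set (EuclideanSpace ℝ (Fin d))))
    (hconv : ∀ K ∈ F, Convex ℝ K)
    (hF : ∀ G ⊆ F, G.Nonempty → G.card ≤ 2 * d → 1 ≤ Metric.ediam (⋂ K ∈ G, K))
    (o : EuclideanSpace ℝ (Fin d))
    (hsym : (∀ K ∈ F, {x : EuclideanSpace ℝ (Fin d) | (2 : ℝ) • o - x ∈ K} ∈ F) ∨
      ((interior (⋂ K ∈ F, K)).Nonempty ∧
        ∀ x ∈ ⋂ K ∈ F, K, (2 : ℝ) • o - x ∈ ⋂ K ∈ F, K)) :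
    ENNReal.ofReal (1 / (50000000 * √(d : ℝ))) ≤ Metric.ediam (⋂ K ∈ F, K) := by
  have hd0 : 0 < d := hd
  have hd1 : (1 : ℝ) ≤ d := by exact_mod_cast hd
  have hpos : 0 < 50000000 * √(d : ℝ) := by positivity
  exact Pool.Agent.Helper6.Helly.famQ hd0 _ hpos (Pool.Agent.Helper72.SD.radcore hd0) F hconv hF o
    hsym

end Pool.Agent.Results.MP_882a21_co.SymmetricSharp
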